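import Pool.Agent.Lib_helper52.LQ.Defs
import Pool.Agent.Lib_helper23.EPS.F3

set_option autoImplicit false

namespace Pool.Agent.LQ

open MeasureTheory ENNReal Set Filter Topology Pool.Agent.EPS Pool.Agent.YG

variable {d : ℕ}

/-- the density is bounded -/
theorem n1_rn_le {μ : Measure (Eu d)} {M : NNReal}
    (hM : μ ≤ (M : ℝ≥0∞) • (volume : Measure (Eu d))) :
    μ.rnDeriv volume ≤ᵐ[volume] fun _ => (M : ℝ≥0∞) := by
  refine ae_le_of_forall_setLIntegral_le_of_sigmaFinite (Measure.measurable_rnDeriv _ _) ?_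
  intro s _ _
  rw [setLIntegral_const]
  calc ∫⁻ x in s, μ.rnDeriv volume x ≤ μ s := Measure.setLIntegral_rnDeriv_le s
    _ ≤ ((M : ℝ≥0∞) • (volume : Measure (Eu d))) s := hM s
    _ = M * volume s := by rw [Measure.smul_apply, smul_eq_mul]

/-- the density vanishes outside a ball -/
theorem n1_rn_zero {μ : Measure (Eu d)} {R : ℝ} (hR : ∀ᵐ x ∂μ, ‖x‖ ≤ R) :
    ∀ᵐ x : Eu d, x ∉ Metric.closedBall (0 : Eu d) R → μ.rnDeriv volume x = 0 := by
  have hmeas : MeasurableSet (Metric.closedBall (0 : Eu d) R)ᶜ :=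
    Metric.isClosed_closedBall.measurableSet.compl
  have h0 : μ (Metric.closedBall (0 : Eu d) R)ᶜ = 0 := by
    rw [← ae_iff.1 hR]
    congr 1
    ext x
    simp only [mem_compl_iff, Metric.mem_closedBall, dist_zero_right, mem_ofPred_eq]
  have h1 : ∫⁻ x in (Metric.closedBall (0 : Eu d) R)ᶜ, μ.rnDeriv volume x = 0 :=
    le_antisymm ((Measure.setLIntegral_rnDeriv_le _).trans h0.le) bot_le
  rw [lintegral_eq_zero_iff (Measure.measurable_rnDeriv _ _)] at h1
  have h2 := (ae_restrict_iff' hmeas).1 h1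
  filter_upwards [h2] with x hx hxn
  exact hx hxn

/-- The density is at most `M` almost everywhere and vanishes outside a ball, so
`negMulLog` of it is bounded and vanishes outside a ball (finite volume). -/
theorem nc_fin {μ : Measure (Eu d)} (h : Nc μ) : FinE μ := by
  obtain ⟨hp, ⟨R, hR⟩, M, hM⟩ := h
  refine ⟨Measure.absolutelyContinuous_of_le_smul hM, ?_⟩
  obtain ⟨C, hC⟩ := (isCompact_Icc (a := (0 : ℝ)) (b := (M : ℝ))).exists_bound_of_continuousOn
    Real.continuous_negMulLog.continuousOn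
  have hC0 : 0 ≤ C := (norm_nonneg _).trans (hC 0 ⟨le_refl _, M.coe_nonneg⟩)
  have hg : Integrable (indicator (Metric.closedBall (0 : Eu d) R) fun _ => C) := by
    rw [integrable_indicator_iff Metric.isClosed_closedBall.measurableSet]
    exact integrableOn_const (measure_closedBall_lt_top.ne)
  refine hg.mono' ?_ ?_
  · exact (Real.continuous_negMulLog.measurable.comp
      (Measure.measurable_rnDeriv _ _).ennreal_toReal).aestronglyMeasurable
  · filter_upwards [n1_rn_le hM, n1_rn_zero hR] with x h1 h2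
    by_cases hx : x ∈ Metric.closedBall (0 : Eu d) R
    · rw [indicator_of_mem hx]
      apply hC
      refine ⟨ENNReal.toReal_nonneg, ?_⟩
      have := ENNReal.toReal_mono ENNReal.coe_ne_top h1
      simpa using this
    · rw [indicator_of_notMem hx, h2 hx]
      simp

/-- `(μ.conv ν) A = ∫ ν (A - x) dμ ≤ M vol A`; the support of the sum is bounded -/
theorem nc_conv {μ ν : Measure (Eu d)} (h : Nc μ) (h' : Nc ν) : Nc (μ.conv ν) := by
  obtain ⟨hp, ⟨R, hR⟩, M, hM⟩ := h
  obtain ⟨hp', ⟨R', hR'⟩, M', hM'⟩ := h'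
  have hadd : Measurable fun p : Eu d × Eu d => p.1 + p.2 := measurable_fst.add measurable_snd
  refine ⟨?_, ⟨R + R', ?_⟩, M', ?_⟩
  · exact Measure.isProbabilityMeasure_map hadd.aemeasurable
  · unfold Measure.conv
    rw [ae_map_iff hadd.aemeasurable (measurableSet_le measurable_norm measurable_const)]
    have h1 : ∀ᵐ p ∂(μ.prod ν), ‖p.1‖ ≤ R := Measure.quasiMeasurePreserving_fst.ae hR
    have h2 : ∀ᵐ p ∂(μ.prod ν), ‖p.2‖ ≤ R' := Measure.quasiMeasurePreserving_snd.ae hR'
    filter_upwards [h1, h2] with p hp1 hp2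
    exact (norm_add_le _ _).trans (add_le_add hp1 hp2)
  · refine Measure.le_iff.2 fun A hA => ?_
    unfold Measure.conv
    rw [Measure.map_apply hadd hA, Measure.prod_apply (hadd hA), Measure.smul_apply, smul_eq_mul]
    calc ∫⁻ x, ν (Prod.mk x ⁻¹' ((fun p : Eu d × Eu d => p.1 + p.2) ⁻¹' A)) ∂μ
        ≤ ∫⁻ _, (M' : ℝ≥0∞) * volume A ∂μ := by
          refine lintegral_mono fun x => ?_
          refine (hM' _).trans ?_
          rw [Measure.smul_apply, smul_eq_mul]
          have h3 : Prod.mk x ⁻¹' ((fun p : Eu d × Eu d => p.1 + p.2) ⁻¹' A) =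
              (fun y => x + y) ⁻¹' A := rfl
          rw [h3, measure_preimage_add]
      _ = (M' : ℝ≥0∞) * volume A := by
          rw [lintegral_const, measure_univ, mul_one]

end Pool.Agent.LQ
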